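import Mathlib
import Pool.Agent.Helper56.SKF.Defs2
import Pool.Agent.Helper56.SKR.GenD
import Pool.Agent.Helper88.SKF.Near
import Pool.Agent.Helper61.SKF.Conv

/-!
# The base case of the reduction theorem
-/

namespace Pool.Agent.Helper59.SKF

open Module Pool.Agent.Helper56.SKW Pool.Agent.Helper56.SKW.PBW Pool.Agent.Helper56.SKU
  Pool.Agent.Helper56.SKR Pool.Agent.Helper56.SKF

universe u

section gen

variable {k : Type u} {L₀ L₁ : Type*} [Field k] [AddCommGroup L₀] [Module k L₀] [AddCommGroup L₁]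
  [Module k L₁] {m n : Type} [Fintype m] [Fintype n] [LinearOrder m] [DecidableEq n]
  {g : LieSuper k L₀ L₁} {b₀ : Basis m k L₀} {b₁ : Basis n k L₁} {p : ℕ} {P : m → L₀}

/-- The degrees at the generic point, for a given valued field. -/
theorem deg_aux [IsAlgClosed k] [hp : Fact p.Prime] [CharP k p] (hp2 : 2 < p)
    (hP0 : ∀ i x, g.b00 (P i) x = ((g.b00 (b₀ i)) ^ p) x) (θ : L₀ →ₗ[k] k)
    {F : Type u} [Field F] [IsAlgClosed F] [Algebra k F] {ζ : m → F} {O : ValuationSubring F}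
    {η : O} (hη : (η : F) ≠ 0) (hη0 : IsLocalRing.residue O η = 0)
    (hk : ∀ a : k, algebraMap k F a ∈ O)
    (hinj : Function.Injective (MvPolynomial.aeval ζ : MvPolynomial m k →ₐ[k] F))
    (hζ : ∀ i, ζ i - (algebraMap k F (θ (b₀ i)) / (η : F) ^ 2) ^ p ∈ O)
    {V : Type u} [AddCommGroup V] [Module F V] [FiniteDimensional F V]
    (ρ : EU (PG g b₀ b₁ p P) →+* Module.End F V) (hρ : Irr ρ)
    (hρφ : ∀ (r : MvPolynomial m k) a, ρ (r • a) = MvPolynomial.aeval ζ r • ρ a)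
    {L : Type u} [AddCommGroup L] [Module F L] [FiniteDimensional F L]
    (τ : EU (P0 g b₀ p P) →+* Module.End F L) (hτ : Irr τ)
    (hτφ : ∀ (r : MvPolynomial m k) a, τ (r • a) = MvPolynomial.aeval ζ r • τ a) :
    finrank F L ∣ p ^ Fintype.card m ∧
    ∀ δ : ℕ, finrank k L₁ + 1 ≤ 2 * ((bOdd g θ + 1) / 2) + δ → 2 ^ δ < p →
      2 ^ ((bOdd g θ + 1) / 2) * finrank F L ∣ finrank F V ∧
      finrank F V * finrank F V ≤ 2 ^ δ * ((2 ^ ((bOdd g θ + 1) / 2) * finrank F L) *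
        (2 ^ ((bOdd g θ + 1) / 2) * finrank F L)) := by
  classical
  have h2 : (2 : k) ≠ 0 := by
    intro h0
    have h1 : ((2 : ℕ) : k) = 0 := by exact_mod_cast h0
    rw [CharP.cast_eq_zero_iff k p] at h1
    have := Nat.le_of_dvd (by norm_num) h1
    omega
  have hfd : FiniteDimensional k L₁ := Module.Finite.of_basis b₁
  let X := Unit ⊕ (m ⊕ n)
  let _ : LinearOrder X := LinearOrder.lift' (Fintype.equivFin X) (Fintype.equivFin X).injective
  have hchF : CharP F p := charP_of_injective_algebraMap (algebraMap k F).injective p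
  have hVnt := hρ.1
  -- the even universal algebra
  have hdom := even_domain (g := g) (b₀ := b₀) (P := P) h2 hP0
  have hind := even_indep (g := g) (b₀ := b₀) (P := P) h2 hP0
  have hsp0 : ⊤ ≤ Submodule.span (MvPolynomial m k)
      (Set.range fun r : TI (P0 g b₀ p P) => pwf (gE (P0 g b₀ p P)) (bw (P0 g b₀ p P) r)) := by
    intro u _
    refine (Submodule.span_le.2 ?_) (gE_span _ u)
    rintro _ ⟨l, rfl⟩
    exact (gE_rel _).span (P0_hE g b₀ p P) (P0_hn g b₀ p P hp.out.two_le) l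
  let bs : Basis (TI (P0 g b₀ p P)) (MvPolynomial m k) (EU (P0 g b₀ p P)) := Basis.mk hind hsp0
  let κ : EU (P0 g b₀ p P) →+* EU (PG g b₀ b₁ p P) := liftE (isRel_even (gE_rel (PG g b₀ b₁ p P)))
  have hsp1 : ∀ a : EU (PG g b₀ b₁ p P), a ∈ Submodule.span (MvPolynomial m k)
      (Set.range fun r : TI (PG g b₀ b₁ p P) =>
        pwf (gE (PG g b₀ b₁ p P)) (bw (PG g b₀ b₁ p P) r)) := by
    intro u
    refine (Submodule.span_le.2 ?_) (gE_span _ u)
    rintro _ ⟨l, rfl⟩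
    exact (gE_rel _).span (PG_hE g b₀ b₁ p P) (PG_hn g b₀ b₁ p P hp.out.two_le) l
  obtain ⟨z, z0, s, e1, e2, e3, e4, e5, e6, B, _, _, _, T, hTφ, hTsp, hTr⟩ :=
    gen_num bs κ (fun r a => liftE_smul _ r a) _ hsp1
      ((MvPolynomial.aeval ζ : MvPolynomial m k →ₐ[k] F) : MvPolynomial m k →+* F) hinj
      ρ hρ hρφ τ hτ hτφ
  have hc0 : Fintype.card (TI (P0 g b₀ p P)) = p ^ Fintype.card m := by
    rw [Fintype.card_pi]
    simp only [Fintype.card_fin]
    exact P0_prod g b₀ p P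
  have hc1 : Fintype.card (TI (PG g b₀ b₁ p P)) = p ^ Fintype.card m * 2 ^ (Fintype.card n + 1) := by
    rw [Fintype.card_pi]
    simp only [Fintype.card_fin]
    exact PG_prod g b₀ b₁ p P
  rw [hc0] at e1 e2 e5 e6 hTr
  rw [hc1] at e5
  -- divisibility
  have hrV := repRel_of_isRel (isRel_of_hom
    ((MvPolynomial.aeval ζ : MvPolynomial m k →ₐ[k] F) : MvPolynomial m k →+* F) ρ hρφ)
  have d1 := lim_mod (p := p) h2 θ hk η hη hη0 hζ hrV
  have hrB := repRel_of_isRel (isRel_of_hom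
    ((MvPolynomial.aeval ζ : MvPolynomial m k →ₐ[k] F) : MvPolynomial m k →+* F) T hTφ)
  have d2 := lim_alg (p := p) h2 θ hk η hη hη0 hζ hrB (hom_span _ T hTφ hTsp)
  rw [hTr] at d2
  have hn : finrank k L₁ = Fintype.card n := finrank_eq_card_basis b₁
  refine ⟨?_, ?_⟩
  · rw [← e2]
    exact ⟨z0 * finrank F L, by ring⟩
  · intro δ hδ hδp
    rw [hn] at hδ
    exact num_core hp.out hp2 e1 e2 e3 e4 e5 e6 d2 d1 hδ hδp

end gen

theorem num_aux {p M c l d : ℕ} (hp : p.Prime) (hp2 : 2 < p) (hl : l ∣ p ^ M)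
    (h1 : 2 ^ c * l ∣ d) (h2 : d * d ≤ 2 * ((2 ^ c * l) * (2 ^ c * l))) (hd : 0 < d) :
    ¬ 2 ^ (c + 1) ∣ d := by
  obtain ⟨t, rfl⟩ := h1
  have hl0 : 0 < l := Nat.pos_of_dvd_of_pos hl (pow_pos hp.pos M)
  have hq : 0 < 2 ^ c * l := by positivity
  have ht : t = 1 := by
    have ht0 : 0 < t := Nat.pos_of_mul_pos_left hd |> fun h => by
      rcases Nat.eq_zero_or_pos t with h' | h'
      · rw [h', mul_zero] at hd; exact absurd hd (lt_irrefl 0)
      · exact h'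
    by_contra hne
    have ht2 : 2 ≤ t := by omega
    have h3 : (2 ^ c * l * t) * (2 ^ c * l * t) = (t * t) * ((2 ^ c * l) * (2 ^ c * l)) := by ring
    rw [h3] at h2
    have h4 : t * t ≤ 2 := Nat.le_of_mul_le_mul_right h2 (by positivity)
    nlinarith
  subst ht
  rw [mul_one, pow_succ]
  intro h
  have h5 : 2 ∣ l := Nat.dvd_of_mul_dvd_mul_left (by positivity) h
  have h6 : 2 ∣ p := Nat.prime_two.dvd_of_dvd_pow (h5.trans hl)
  rcases (Nat.dvd_prime hp).1 h6 with h7 | h7 <;> omega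

theorem base_near {k : Type u} {L₀ L₁ : Type*} [Field k] [AddCommGroup L₀] [Module k L₀]
    [AddCommGroup L₁] [Module k L₁] [IsAlgClosed k] [FiniteDimensional k L₀]
    [FiniteDimensional k L₁] (p : ℕ) [hp : Fact p.Prime] [CharP k p] (hp2 : 2 < p)
    (g : LieSuper k L₀ L₁) (θ : L₀ →ₗ[k] k)
    (hres : ∀ x, ∃ x', g.b00 x' = (g.b00 x) ^ p ∧ g.b01 x' = (g.b01 x) ^ p)
    (hker : LinearMap.ker (form₁ g θ) = ⊥) : HasNear p g θ := by
  classical
  have h2 : (2 : k) ≠ 0 := by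
    intro h0
    have h1 : ((2 : ℕ) : k) = 0 := by exact_mod_cast h0
    rw [CharP.cast_eq_zero_iff k p] at h1
    have := Nat.le_of_dvd (by norm_num) h1
    omega
  let b₀ := Module.finBasis k L₀
  let b₁ := Module.finBasis k L₁
  choose P hPa hPb using fun i => hres (b₀ i)
  have hP0 : ∀ i x, g.b00 (P i) x = ((g.b00 (b₀ i)) ^ p) x := fun i x => by rw [hPa]
  have hP1 : ∀ i y, g.b01 (P i) y = ((g.b01 (b₀ i)) ^ p) y := fun i y => by rw [hPb]
  have hb : bOdd g θ = finrank k L₁ := by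
    rw [bOdd, hker, finrank_bot, Nat.sub_zero]
  let X := Unit ⊕ (Fin (finrank k L₀) ⊕ Fin (finrank k L₁))
  let _ : LinearOrder X := LinearOrder.lift' (Fintype.equivFin X) (Fintype.equivFin X).injective
  obtain ⟨F, iF, iAC, iA, ζ, O, η, hη, hη0, hk, hinj, hζ⟩ :=
    exists_valued (k := k) (m := Fin (finrank k L₀)) p hp.out.pos (fun i => θ (b₀ i))
  obtain ⟨V, _, _, _, ρ, hρ, hρφ⟩ := exists_gen (full_flat (g := g) (b₀ := b₀) (b₁ := b₁)
    (P := P) h2 hP0 hP1)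
    ((MvPolynomial.aeval ζ : MvPolynomial (Fin (finrank k L₀)) k →ₐ[k] F) :
      MvPolynomial (Fin (finrank k L₀)) k →+* F)
  obtain ⟨L, _, _, _, τ, hτ, hτφ⟩ := exists_gen (even_flat (g := g) (b₀ := b₀) (P := P) h2 hP0)
    ((MvPolynomial.aeval ζ : MvPolynomial (Fin (finrank k L₀)) k →ₐ[k] F) :
      MvPolynomial (Fin (finrank k L₀)) k →+* F)
  obtain ⟨hl, hnum⟩ := deg_aux (b₁ := b₁) hp2 hP0 θ hη hη0 hk hinj hζ ρ hρ hρφ τ hτ hτφ
  obtain ⟨h5, h6⟩ := hnum 1 (by rw [hb]; omega) (by rw [pow_one]; exact hp2)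
  rw [pow_one] at h6
  have hVnt := hρ.1
  have hV0 : 0 < finrank F V := finrank_pos
  have h7 := num_aux hp.out hp2 hl h5 h6 hV0
  let _ : Module k V := Module.compHom V (algebraMap k F)
  have _ : IsScalarTower k F V := IsScalarTower.of_algebraMap_smul fun r x => rfl
  obtain ⟨M, hM, -, -, -, hirr⟩ := grep_of_rep (b₀ := b₀) (b₁ := b₁) (p := p) (P := P) ζ ρ hρφ
  refine ⟨F, iF, iAC, iA, O, η, V, inferInstance, inferInstance, inferInstance, inferInstance,
    inferInstance, M, hη0, hη, hk, hirr.2 hρ, ?_, h7⟩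
  refine Pool.Agent.Helper88.SKF.near_of_basis b₀ b₁ hp2 P O η hη0 hη hk θ M (hirr.2 hρ) ζ
    fun i => ⟨hM i, ?_⟩
  refine ⟨η ^ (2 * p) * ⟨_, hζ i⟩, ?_, ?_⟩
  · have hpp : 2 * p ≠ 0 := by have := hp.out.pos; omega
    rw [map_mul, map_pow, hη0, zero_pow hpp, zero_mul]
  · push_cast
    rw [div_pow, ← pow_mul]
    field_simp
    ring

end Pool.Agent.Helper59.SKF
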